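import Pool.Agent.H578R2.ANN.PolyI

/-!
# Annihilation on directed graphs with cycles is EXPTIME-hard, already with two token types

Deciding the outcome of an Annihilation position on an arbitrary digraph lies in EXPTIME by
backward induction; here it is shown to be EXPTIME-hard, for positions with exactly two token types,
and for each of the three outcomes.

Idea of the reduction (from alternating Boolean register machines; their acceptance is
EXPTIME-hard).  One control token, of type 0, and one token of type 1 for each register.  The token
of register `j` lives in its own region with vertices `p0`, `p1` (the register holds 0 or 1), `q`
(lifted), `t` (dead) and edges `p0, p1 -> q -> p0, p1, t`.  When the control token is out of play,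
the player to move wins iff the number of lifted tokens is odd.  From an ordinary control vertex the
control token can go to `e1` (with `e1 -> e0`, `e0` final), which wins iff exactly now the number of
lifted tokens is odd; and going from a control vertex to a vertex with a dead register token, or a
token showing a wrong value, annihilates both tokens, and wins iff the number of lifted tokens is
even.  So any deviation from the intended play loses at once (one deviation can be taken back).  To
set a register, one player lifts the token and must put it back at the right value, while the other
player moves the control token.
-/

namespace Pool.Agent.Results.MP_8c4891_lc.ExptimeHard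

open Pool.Agent.NPC Pool.Agent.NPC.ANN Pool.Agent.H820R2.SS

/-- Every language `S` which correctly answers, for all Annihilation positions with exactly two
token types, whether the player to move can force a win (or: whether the other player can; or:
whether the position is a draw), is hard for EXPTIME under polynomial-time many-one reductions. -/
theorem result (S : Set (List Bool)) :
    ((∀ A : Annih, IsPosition A → A.2.1.length = 2 → (bits A ∈ S ↔ MoverWins A)) →
      ∀ L : Set (List Bool), InEXPTIME L → Reduces L S) ∧
    ((∀ A : Annih, IsPosition A → A.2.1.length = 2 → (bits A ∈ S ↔ OtherWins A)) →
      ∀ L : Set (List Bool), InEXPTIME L → Reduces L S) ∧
    ((∀ A : Annih, IsPosition A → A.2.1.length = 2 → (bits A ∈ S ↔ Drawn A)) →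
      ∀ L : Set (List Bool), InEXPTIME L → Reduces L S) :=
  ⟨fun hS _ hL => hard_win hS hL, fun hS _ hL => hard_lose hS hL, fun hS _ hL => hard_draw hS hL⟩

end Pool.Agent.Results.MP_8c4891_lc.ExptimeHard
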